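import Pool.Agent.Lib.MP_43d240_ag.FZ.Iface

/-!
Project PI, frozen side, module NCA: the dehomogenised forms are not constant.
-/

set_option autoImplicit false

namespace Pool.Agent.PI.FZ.H10

open MvPolynomial

/-- removing the coordinate `a` of an exponent -/
noncomputable def rem (a : Fin 4) (m : Fin 4 →₀ ℕ) : Fin 3 →₀ ℕ :=
  Finsupp.equivFunOnFinite.symm fun b => m (a.succAbove b)

theorem rem_apply (a : Fin 4) (m : Fin 4 →₀ ℕ) (b : Fin 3) : rem a m b = m (a.succAbove b) := rfl

theorem degree_eq (a : Fin 4) (m : Fin 4 →₀ ℕ) :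
    m.degree = m a + ∑ b, m (a.succAbove b) := by
  rw [Finsupp.degree_eq_sum, Fin.sum_univ_succAbove _ a]

theorem rem_injOn (a : Fin 4) {m n : Fin 4 →₀ ℕ} (h : rem a m = rem a n)
    (hd : m.degree = n.degree) : m = n := by
  have h1 : ∀ b, m (a.succAbove b) = n (a.succAbove b) := fun b => by
    rw [← rem_apply, ← rem_apply, h]
  have h2 : m a = n a := by
    rw [degree_eq a, degree_eq a, Finset.sum_congr rfl (fun b _ => h1 b)] at hd
    omega
  ext i
  rcases Fin.eq_self_or_eq_succAbove a i with rfl | ⟨b, rfl⟩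
  · exact h2
  · exact h1 b

variable {k : Type} [Field k]

theorem dh_monomial (a : Fin 4) (m : Fin 4 →₀ ℕ) (c : k) :
    dh a (monomial m c) = monomial (rem a m) c := by
  rw [dh, aeval_monomial, monomial_eq (s := rem a m), Finsupp.prod_fintype _ _ (by simp),
    Finsupp.prod_fintype _ _ (by simp), Fin.prod_univ_succAbove _ a]
  simp [rem_apply, algebraMap_eq]

theorem coeff_dh (a : Fin 4) {d : ℕ} {f : MvPolynomial (Fin 4) k} (hf : f.IsHomogeneous d)
    (m : Fin 4 →₀ ℕ) (hm : m.degree = d) : coeff (rem a m) (dh a f) = coeff m f := by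
  classical
  conv_lhs => rw [f.as_sum]
  rw [map_sum, coeff_sum]
  simp only [dh_monomial, coeff_monomial]
  rw [Finset.sum_eq_single m]
  · simp
  · intro n hn hnm
    rw [if_neg]
    intro h
    refine hnm (rem_injOn a h ?_)
    rw [hm]
    have := hf (mem_support_iff.1 hn)
    rw [Finsupp.degree_eq_weight_one]
    exact this
  · intro hn
    simp [notMem_support_iff.1 hn]

theorem nca : NCA_S := by
  classical
  intro k ι _ d hd f hf hG a i hu
  obtain ⟨c, hc, hcf⟩ := (MvPolynomial.isUnit_iff_eq_C_of_isReduced).1 hu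
  have hfi : f i = C c * X a ^ d := by
    rw [C_mul_X_pow_eq_monomial]
    ext m
    rw [coeff_monomial]
    by_cases hm : m.degree = d
    · rw [← coeff_dh a (hf i) m hm, hcf, coeff_C]
      have : (0 = rem a m) ↔ (Finsupp.single a d = m) := by
        constructor
        · intro h
          refine rem_injOn a ?_ ?_
          · rw [← h]
            ext b
            rw [rem_apply, Finsupp.single_eq_of_ne (Fin.succAbove_ne a b)]
            rfl
          · rw [hm, Finsupp.degree_single]
        · intro h
          rw [← h]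
          ext b
          rw [rem_apply, Finsupp.single_eq_of_ne (Fin.succAbove_ne a b)]
          rfl
      simp only [this]
    · rw [if_neg, (hf i).coeff_eq_zero]
      · exact hm
      · intro h
        exact hm (by rw [← h, Finsupp.degree_single])
  obtain ⟨b, hb⟩ : ∃ b : Fin 4, b ≠ a := exists_ne a
  have hP : (Pi.single b 1 : Fin 4 → k) ≠ 0 := by simp
  have hPa : (Pi.single b 1 : Fin 4 → k) a = 0 := Pi.single_eq_of_ne hb.symm 1
  have h0 : eval (Pi.single b 1 : Fin 4 → k) (f i) = 0 := by
    rw [hfi]; simp [hPa, show d ≠ 0 by omega]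
  have h1 := (hG _ hP).ne_zero ⟨i, h0⟩
  refine h1 (funext fun v => ?_)
  show eval (Pi.single b 1 : Fin 4 → k) (pderiv v (f i)) = 0
  rw [hfi, Derivation.leibniz, Derivation.leibniz_pow]
  simp [hPa, show d - 1 ≠ 0 by omega]

end Pool.Agent.PI.FZ.H10
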