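import Pool.Agent.Lib.MP_43d240_ag.FZ.Iface

/-!
Project PI, frozen side, module NSQ: no product of members of a family in general position is a
square.
-/

set_option autoImplicit false

namespace Pool.Agent.PI.FZ.H10

open MvPolynomial

theorem exists_zero {k : Type} [Field k] [IsAlgClosed k] {π : MvPolynomial (Fin 3) k}
    (h : ¬ IsUnit π) : ∃ P : Fin 3 → k, eval P π = 0 := by
  obtain ⟨M, hM, hle⟩ := Ideal.exists_le_maximal (Ideal.span {π})
    (fun ht => h (Ideal.span_singleton_eq_top.1 ht))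
  obtain ⟨P, hP⟩ := isMaximal_iff_eq_vanishingIdeal_singleton.1 hM
  refine ⟨P, ?_⟩
  have h1 : π ∈ vanishingIdeal k {P} := by
    rw [← hP]; exact hle (Ideal.mem_span_singleton_self _)
  rw [mem_vanishingIdeal_singleton_iff] at h1
  rwa [← MvPolynomial.aeval_eq_eval]

theorem nsq : NSQ_S := by
  classical
  intro k ι _ _ h2 g hG hu w hw p q hq heq
  -- members are nonzero
  have hg0 : ∀ i, g i ≠ 0 := by
    intro i h0
    have := (hG 0).ne_zero ⟨i, by simp [h0]⟩
    exact this (funext fun v => by simp [h0])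
  obtain ⟨i, hi⟩ := hw
  obtain ⟨π, hπ, hπi⟩ := WfDvdMonoid.exists_irreducible_factor (hu i) (hg0 i)
  have hπp : Prime π := hπ.prime
  obtain ⟨P, hP⟩ := exists_zero hπ.not_isUnit
  -- gradient of a multiple of π at P
  have grad : ∀ h : MvPolynomial (Fin 3) k, ∀ v,
      eval P (pderiv v (π * h)) = eval P h * eval P (pderiv v π) := by
    intro h v
    rw [Derivation.leibniz]
    simp [hP]
  -- π² divides no member
  have hsq : ∀ j h, g j ≠ π * (π * h) := by
    intro j h hj
    have h0 : eval P (g j) = 0 := by rw [hj]; simp [hP]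
    refine (hG P).ne_zero ⟨j, h0⟩ (funext fun v => ?_)
    show eval P (pderiv v (g j)) = 0
    rw [hj, grad]
    simp [hP]
  -- π divides only `g i`
  have hone : ∀ j, j ≠ i → ¬ π ∣ g j := by
    rintro j hji ⟨h', hj⟩
    obtain ⟨h, hi'⟩ := hπi
    have hj0 : eval P (g j) = 0 := by rw [hj]; simp [hP]
    have hi0 : eval P (g i) = 0 := by rw [hi']; simp [hP]
    have hLI := hG P
    have hne : (⟨j, hj0⟩ : {i : ι // eval P (g i) = 0}) ≠ ⟨i, hi0⟩ := by
      intro h; exact hji (congrArg Subtype.val h)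
    have hlc := (linearIndependent_iff.1 hLI)
      (Finsupp.single ⟨j, hj0⟩ (eval P h) - Finsupp.single ⟨i, hi0⟩ (eval P h')) (by
        rw [map_sub, Finsupp.linearCombination_single, Finsupp.linearCombination_single]
        funext v
        show eval P h * eval P (pderiv v (g j)) - eval P h' * eval P (pderiv v (g i)) = 0
        rw [hj, hi', grad, grad]
        ring)
    have hh : eval P h = 0 := by
      have h3 := DFunLike.congr_fun hlc ⟨j, hj0⟩
      rw [Finsupp.sub_apply, Finsupp.single_eq_same, Finsupp.single_eq_of_ne hne] at h3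
      simpa using h3
    refine hLI.ne_zero ⟨i, hi0⟩ (funext fun v => ?_)
    show eval P (pderiv v (g i)) = 0
    rw [hi', grad, hh, zero_mul]
  obtain ⟨h, hi'⟩ := hπi
  have hπh : ¬ π ∣ h := by
    rintro ⟨h', rfl⟩
    exact hsq i h' hi'
  -- the product is π * u with π ∤ u
  obtain ⟨u, hu1, hu2⟩ : ∃ u, ∏ i ∈ w, g i = π * u ∧ ¬ π ∣ u := by
    refine ⟨h * ∏ j ∈ w.erase i, g j, ?_, ?_⟩
    · rw [← Finset.mul_prod_erase w g hi, hi']; ring
    · intro hd
      rcases hπp.dvd_or_dvd hd with h1 | h1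
      · exact hπh h1
      · obtain ⟨j, hj, hj'⟩ := hπp.exists_mem_finset_dvd h1
        exact hone j (Finset.ne_of_mem_erase hj) hj'
  have hp0 : p ≠ 0 := by
    rintro rfl
    have h3 : (∏ i ∈ w, g i) * q ^ 2 ≠ 0 :=
      mul_ne_zero (Finset.prod_ne_zero_iff.2 fun j _ => hg0 j) (pow_ne_zero _ hq)
    exact h3 (by simpa using heq)
  have hu0 : u ≠ 0 := by rintro rfl; exact hu2 (dvd_zero _)
  have fin : ∀ x : MvPolynomial (Fin 3) k, x ≠ 0 → FiniteMultiplicity π x := fun x hx =>
    FiniteMultiplicity.of_prime_left hπp hx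
  have hm : multiplicity π ((∏ i ∈ w, g i) * q ^ 2) = multiplicity π (p ^ 2) := by rw [heq]
  rw [hu1, multiplicity_mul hπp (fin _ (mul_ne_zero (mul_ne_zero hπp.ne_zero hu0)
      (pow_ne_zero _ hq))),
    multiplicity_mul hπp (fin _ (mul_ne_zero hπp.ne_zero hu0)),
    multiplicity_self, multiplicity_eq_zero.2 hu2,
    (fin _ hq).multiplicity_pow hπp, (fin _ hp0).multiplicity_pow hπp] at hm
  omega

end Pool.Agent.PI.FZ.H10
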